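import Pool.Agent.Work.MP_fae5c8_lc.ER.Class

namespace Pool.Agent.Results.MP_fae5c8_lc.ERComplete

open Pool.Agent.Work.MP_fae5c8_lc.ER

/-- The loading problem for the three-node network with two standard-sigmoid hidden nodes, a
perceptron output node, unrestricted real parameters and at most `c k` Boolean points is complete
for the existential theory of the reals; it is NP-hard, and NP-complete iff `NP = ∃ℝ`. -/
theorem result (c : ℕ) (hc : 1 ≤ c) :
    N793a5b8e.IsCompleteFor ExR (LOAD c) ∧
      (∀ L ∈ N68a2faeb.NP, N793a5b8e.ManyOneReducible L (LOAD c)) ∧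
      (N793a5b8e.IsCompleteFor N68a2faeb.NP (LOAD c) ↔ N68a2faeb.NP = ExR) :=
  er_main c hc

end Pool.Agent.Results.MP_fae5c8_lc.ERComplete
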